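import Pool.Agent.CYG.D.Def
import Pool.Agent.CYL.D.H.Low

/-!
# CYL, part D2: `rm_th`, in the names of `CYL/D/Def.lean`
-/

namespace Pool.Agent.CYL

open Pool.Agent.Hhelper14.SAW Pool.Agent.HHP Pool.Agent.QL Pool.Agent.BEX
open scoped ENNReal

variable {L l N : ℕ}

theorem th_eq (s : Fin l → Fin L) : th s = H.th s := by
  funext a
  rcases a with i | k <;> rfl

theorem Fam_iff (c e : Fin l → Fin L) (g : Fin l → List (CV L)) : Fam N c e g ↔ H.Fam N c e g :=
  ⟨fun h => ⟨h.1, fun k k' hk _ h1 h2 => h.2 k k' hk h1 h2⟩,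
    fun h => ⟨h.cp, fun k k' hk _ h1 h2 => h.dj k k' hk _ h1 h2⟩⟩

theorem fm_eq (c e : Fin l → Fin L) : fm N c e = H.fm N c e := by
  unfold fm H.fm
  have h : {g : Fin l → List (CV L) | Fam N c e g} = {g | H.Fam N c e g} := by
    ext g
    exact Fam_iff c e g
  have e1 : ∀ g : {g : Fin l → List (CV L) // Fam N c e g},
      xE ^ (∑ k, (g.1 k).length) = ∏ k, xE ^ (g.1 k).length := fun g => (Finset.prod_pow_eq_pow_sum _ _ _).symm
  rw [tsum_congr e1]
  exact (Equiv.subtypeEquivRight (fun g => Fam_iff c e g)).tsum_eq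
    (fun g : {g : Fin l → List (CV L) // H.Fam N c e g} => ∏ k, xE ^ (g.1 k).length)

/-- The mass of the runs from `th c` to `th e` is the mass of the families of disjoint crossing paths. -/
theorem rm_th (hL : 2 ≤ L) (hN : 1 ≤ N) {c e : Fin l → Fin L} (hc : Function.Injective c)
    (he : Function.Injective e) : rm (Sum.inl : Fin L → Lb L l) N (th c) (th e) = fm N c e := by
  rw [th_eq, th_eq, fm_eq]
  exact H.rm_eq_fm hL hN hc he

end Pool.Agent.CYL
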